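import Pool.Agent.J6H94.TSp.Final

/-!
# MP_f95493_lc: superlinear total space for polynomially refutable k-CNF formulas

The definitions (clauses, resolution refutations, their size, space-aware refutations, total space)
are in `Pool/Agent/J6H94/TSp/Defs.lean`.
-/

set_option autoImplicit false

namespace Pool.Agent.Results.MP_f95493_lc.SuperlinearTotalSpace

open Pool.Agent.J6H94.TSp

/-- Question 1: for every `ε > 0` there are constants `k`, `K`, an infinite set `I` of numbers `n` and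
`k`-CNF formulas `F n` in `n` variables, all of which occur, such that for all `n ∈ I` the formula
`F n` has at most `n ^ K` clauses, is unsatisfiable, has a resolution refutation of size at most
`n ^ K`, and every space-aware resolution refutation of `F n` has total space at least
`n ^ (3 / 2 - ε)`. -/
theorem result (ε : ℝ) (hε : 0 < ε) :
    ∃ (k K : ℕ) (I : Set ℕ) (F : (n : ℕ) → Finset (Clause (Fin n))), I.Infinite ∧ ∀ n ∈ I,
      (∀ C ∈ F n, C.card ≤ k) ∧
      (∀ v : Fin n, ∃ C ∈ F n, (v, true) ∈ C ∨ (v, false) ∈ C) ∧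
      (F n).card ≤ n ^ K ∧
      Unsatisfiable (F n) ∧
      HasRefutationOfSize (F n) (n ^ K) ∧
      ∀ π : SpaceRefutation (F n), (n : ℝ) ^ (3 / 2 - ε) ≤ (π.space : ℝ) := by
  classical
  obtain ⟨t, ht⟩ : ∃ t : ℕ, 9 / ε ≤ t := exists_nat_ge (9 / ε)
  have ht0 : 1 ≤ t := by
    have h1 : (0 : ℝ) < t := lt_of_lt_of_le (by positivity) ht
    exact_mod_cast h1
  have htε : 9 ≤ ε * t := by
    rw [div_le_iff₀ hε] at ht
    linarith
  obtain ⟨e, he⟩ : ∃ e, e = 24 * (2 * t + 3) + 5 := ⟨_, rfl⟩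
  obtain ⟨m₀, hm₀⟩ : ∃ m₀, m₀ = 200 + 9 * (e + 1) := ⟨_, rfl⟩
  refine ⟨6 * e, 12 * e + 27, {n | ∃ m, m₀ ≤ m ∧ n = m ^ (2 * t + 3)}, ?_⟩
  have key : ∀ n : ℕ, ∃ F : Finset (Clause (Fin n)),
      n ∈ {n | ∃ m, m₀ ≤ m ∧ n = m ^ (2 * t + 3)} →
      (∀ C ∈ F, C.card ≤ 6 * e) ∧
      (∀ v : Fin n, ∃ C ∈ F, (v, true) ∈ C ∨ (v, false) ∈ C) ∧
      F.card ≤ n ^ (12 * e + 27) ∧
      Unsatisfiable F ∧
      HasRefutationOfSize F (n ^ (12 * e + 27)) ∧
      ∀ π : SpaceRefutation F, (n : ℝ) ^ (3 / 2 - ε) ≤ (π.space : ℝ) := by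
    intro n
    by_cases hn : n ∈ {n | ∃ m, m₀ ≤ m ∧ n = m ^ (2 * t + 3)}
    · obtain ⟨m, hm, rfl⟩ := hn
      have h200 : 200 ≤ m := by omega
      have h9 : 9 * (24 * (2 * t + 3) + 6) ≤ m := by
        have h10 : 24 * (2 * t + 3) + 6 = e + 1 := by rw [he]
        rw [h10]
        omega
      obtain ⟨F, h1, h2, h3, h4, h5, h6⟩ := family t m ht0 h200 h9
      rw [← he] at h1 h3 h5
      refine ⟨F, fun _ => ⟨h1, h2, h3, h4, h5, fun π => ?_⟩⟩
      have h7 := h6 π
      have h8 : ((m ^ (3 * t) : ℕ) : ℝ) ≤ (π.space : ℝ) := by exact_mod_cast h7.le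
      refine le_trans ?_ h8
      have hm1 : (1 : ℝ) ≤ m := by exact_mod_cast (by omega : 1 ≤ m)
      rw [Nat.cast_pow, Nat.cast_pow, ← Real.rpow_natCast, ← Real.rpow_natCast,
        ← Real.rpow_mul (by linarith)]
      refine Real.rpow_le_rpow_of_exponent_le hm1 ?_
      push_cast
      nlinarith
    · exact ⟨∅, fun h => absurd h hn⟩
  choose F hF using key
  refine ⟨F, ?_, fun n hn => hF n hn⟩
  refine Set.infinite_of_injective_forall_mem
    (f := fun m : ℕ => (m + m₀) ^ (2 * t + 3)) ?_ ?_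
  · intro a b hab
    have := Nat.pow_left_injective (n := 2 * t + 3) (by omega) hab
    simpa using this
  · intro m
    exact ⟨m + m₀, by omega, rfl⟩

end Pool.Agent.Results.MP_f95493_lc.SuperlinearTotalSpace
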